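import Pool.Agent.Lib.MP_a78e1f_lc.T.Iface

/-!
# COD: codes of finite sequences
-/

set_option autoImplicit false

namespace Pool.Agent.Lib.MP_a78e1f_lc.H63

open Pool.Agent.Lib.MP_a78e1f_lc

theorem Pc_snoc (t : List ℕ) (l : ℕ) : Pc (t ++ [l]) = Nat.pair (Pc t) (2 ^ (l + 1)) + 1 := by
  simp [Pc, List.foldl_append]

theorem Pc_nil : Pc [] = 0 := rfl

theorem cd_snoc (ρ : List Bool) (b : Bool) : cd (ρ ++ [b]) = 2 * cd ρ + if b then 1 else 0 := by
  simp [cd, List.foldl_append]

theorem cd_nil : cd [] = 1 := rfl

theorem Pc_lt_snoc (t : List ℕ) (l : ℕ) : Pc t < Pc (t ++ [l]) := by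
  rw [Pc_snoc]
  exact Nat.lt_succ_of_le (Nat.left_le_pair _ _)

theorem two_lt_snoc (t : List ℕ) (l : ℕ) : 2 ^ (l + 1) < Pc (t ++ [l]) := by
  rw [Pc_snoc]
  exact Nat.lt_succ_of_le (Nat.right_le_pair _ _)

theorem Pc_inj : Function.Injective Pc := by
  intro t
  induction t using List.reverseRecOn with
  | nil =>
    intro t' h
    rcases List.eq_nil_or_concat t' with h' | ⟨s, l, h'⟩
    · exact h'.symm
    · rw [List.concat_eq_append] at h'
      subst h'
      have := Pc_lt_snoc s l
      rw [← h, Pc_nil] at this
      exact absurd this (Nat.not_lt_zero _)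
  | append_singleton t l ih =>
    intro t' h
    rcases List.eq_nil_or_concat t' with h' | ⟨s, l', h'⟩
    · subst h'
      have := Pc_lt_snoc t l
      rw [h, Pc_nil] at this
      exact absurd this (Nat.not_lt_zero _)
    · rw [List.concat_eq_append] at h'
      subst h'
      rw [Pc_snoc, Pc_snoc] at h
      have h1 := Nat.succ_injective h
      have h2 := Nat.pair_eq_pair.1 h1
      have h3 := ih h2.1
      have h4 : l + 1 = l' + 1 := Nat.pow_right_injective (le_refl 2) h2.2
      rw [h3, Nat.succ_injective h4]

theorem cd_pos (ρ : List Bool) : 0 < cd ρ := by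
  induction ρ using List.reverseRecOn with
  | nil => exact Nat.one_pos
  | append_singleton t l ih =>
    rw [cd_snoc]
    omega

theorem cd_inj : Function.Injective cd := by
  intro t
  induction t using List.reverseRecOn with
  | nil =>
    intro t' h
    rcases List.eq_nil_or_concat t' with h' | ⟨s, l, h'⟩
    · exact h'.symm
    · rw [List.concat_eq_append] at h'
      subst h'
      rw [cd_snoc, cd_nil] at h
      have := cd_pos s
      omega
  | append_singleton t l ih =>
    intro t' h
    rcases List.eq_nil_or_concat t' with h' | ⟨s, l', h'⟩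
    · subst h'
      rw [cd_snoc, cd_nil] at h
      have := cd_pos t
      omega
    · rw [List.concat_eq_append] at h'
      subst h'
      rw [cd_snoc, cd_snoc] at h
      have h1 : cd t = cd s := by
        split_ifs at h <;> omega
      have h2 : l = l' := by
        cases l <;> cases l' <;> simp at h ⊢ <;> omega
      rw [ih h1, h2]

theorem cd_lt (ρ : List Bool) : cd ρ < 2 ^ (ρ.length + 1) := by
  induction ρ using List.reverseRecOn with
  | nil => simp [cd_nil]
  | append_singleton t l ih =>
    rw [cd_snoc, List.length_append, List.length_singleton, pow_succ]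
    split_ifs <;> omega

theorem length_le (t : List ℕ) : t.length ≤ Pc t := by
  induction t using List.reverseRecOn with
  | nil => simp
  | append_singleton t l ih =>
    rw [List.length_append, List.length_singleton]
    exact Nat.succ_le_of_lt (lt_of_le_of_lt ih (Pc_lt_snoc t l))

theorem Pc_mono (t t' : List ℕ) (h : t <+: t') : Pc t ≤ Pc t' := by
  obtain ⟨s, rfl⟩ := h
  induction s using List.reverseRecOn with
  | nil => simp
  | append_singleton s l ih =>
    rw [← List.append_assoc]
    exact ih.trans (Pc_lt_snoc _ _).le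

/-- COD. -/
theorem cod : CodStatement :=
  ⟨Pc_inj, cd_inj, cd_lt, Pc_snoc, Pc_lt_snoc, two_lt_snoc, length_le, Pc_mono⟩

end Pool.Agent.Lib.MP_a78e1f_lc.H63
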