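import Pool.Agent.Lib.MP_a78e1f_lc.R.Iface

/-!
# DIX: the values `disX` and `gcX` pointwise
-/

set_option autoImplicit false

universe u v w

open Cardinal Filter MeasureTheory

namespace Pool.Agent.Lib.MP_a78e1f_lc.H63

open Pool.Agent.Lib.MP_100a6c_lc
open Pool.Agent.Lib.MP_c5d73d_lc.F (pr)
open Pool.Agent.Lib.MP_e6fef2_lc
open Pool.Agent.Lib.MP_6d445e_gt
open Pool.Agent.Lib.MP_a78e1f_lc

theorem countable_in {N : Set El.{u}} (hN : N.Countable) (T : Type u) (p : T → Prop) :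
    Countable {t : T // In N t ∧ p t} := by
  have : Countable N := hN.to_subtype
  refine Function.Injective.countable
    (f := fun t : {t : T // In N t ∧ p t} => (⟨⟨T, t.1⟩, t.2.1⟩ : N)) ?_
  intro a b hab
  have h1 : (⟨T, a.1⟩ : El.{u}) = ⟨T, b.1⟩ := congrArg Subtype.val hab
  exact Subtype.ext (eq_of_heq (Sigma.mk.inj h1).2)

section

variable {A : Type u} [CompleteBooleanAlgebra A]

theorem disX_iff (n : ℕ) (x : ℕ → RA A) (Y X : ℕ → A) : ∀ᶠ g in ae A, disX n x Y X ∈ g ↔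
    ∀ p, n ≤ p → ∀ i, ev X (x (Nat.pair p i)) ∈ g → Y (Nat.pair p i) ∉ g := by
  unfold disX
  have h1 := ae_iInf (A := A) fun p : ℕ => ⨅ _ : n ≤ p, ⨅ i,
    (ev X (x (Nat.pair p i)) ⊓ Y (Nat.pair p i))ᶜ
  have h2 := ae_all fun p : ℕ => ae_iInf (A := A) fun _ : n ≤ p => ⨅ i,
    (ev X (x (Nat.pair p i)) ⊓ Y (Nat.pair p i))ᶜ
  have h3 := ae_all fun p : ℕ => ae_iInf (A := A) fun i =>
    (ev X (x (Nat.pair p i)) ⊓ Y (Nat.pair p i))ᶜ
  filter_upwards [h1, h2, h3] with g h1 h2 h3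
  rw [h1]
  refine forall_congr' fun p => ?_
  rw [h2 p]
  refine forall_congr' fun _ => ?_
  rw [h3 p]
  refine forall_congr' fun i => ?_
  rw [g.mem_compl, g.mem_inf, not_and]

theorem gcX_iff (N : Set El.{u}) (hN : N.Countable) (X Y : ℕ → A) : ∀ᶠ g in ae A,
    gcX N X Y ∈ g ↔
      rn N X ∈ g ∧ cut Y ∈ g ∧ ∀ x : ℕ → RA A, In N x → Sl x → ∃ n, disX n x Y X ∈ g := by
  have hc := countable_in hN (ℕ → RA A) Sl
  have e : (⨅ x : ℕ → RA A, ⨅ _ : In N x, ⨅ _ : Sl x, ⨆ n, disX n x Y X) =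
      ⨅ x : {x : ℕ → RA A // In N x ∧ Sl x}, ⨆ n, disX n x.1 Y X := by
    rw [iInf_subtype]
    exact iInf_congr fun x => iInf_and' (s := fun (_ : In N x) (_ : Sl x) => ⨆ n, disX n x Y X)
  unfold gcX
  rw [e]
  have h1 := ae_iInf (A := A) fun x : {x : ℕ → RA A // In N x ∧ Sl x} => ⨆ n, disX n x.1 Y X
  have h2 := ae_all fun x : {x : ℕ → RA A // In N x ∧ Sl x} =>
    ae_iSup (A := A) fun n => disX n x.1 Y X
  filter_upwards [h1, h2] with g h1 h2
  rw [g.mem_inf, g.mem_inf, h1, and_assoc]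
  refine and_congr_right fun _ => and_congr_right fun _ => ?_
  constructor
  · intro h x hx hs
    exact (h2 ⟨x, hx, hs⟩).1 (h ⟨x, hx, hs⟩)
  · intro h x
    exact (h2 x).2 (h x.1 x.2.1 x.2.2)

theorem disX_anti (n : ℕ) (x : ℕ → RA A) (X : ℕ → A) {Y Y' : ℕ → A} (h : ∀ n, Y' n ≤ Y n) :
    disX n x Y X ≤ disX n x Y' X := by
  unfold disX
  exact iInf_mono fun p => iInf_mono fun _ => iInf_mono fun i =>
    compl_le_compl (inf_le_inf_left _ (h _))

theorem cut_anti {Y Y' : ℕ → A} (h : ∀ n, Y' n ≤ Y n) : cut Y ≤ cut Y' := by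
  unfold cut
  exact iInf_mono fun m => iSup_mono fun k => iSup_mono fun _ => iInf_mono fun p =>
    iInf_mono fun _ => iInf_mono fun i => iInf_mono fun _ => compl_le_compl (h _)

end

/-- DIX. -/
theorem dix : DixStatement.{u} := by
  intro A _
  refine ⟨disX_iff, fun N hN X Y => gcX_iff N hN X Y, fun N X Y Y' h => ?_⟩
  unfold gcX
  exact inf_le_inf (inf_le_inf_left _ (cut_anti h)) (iInf_mono fun x => iInf_mono fun _ =>
    iInf_mono fun _ => iSup_mono fun n => disX_anti n x X h)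

end Pool.Agent.Lib.MP_a78e1f_lc.H63
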