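import Pool.Agent.Lib.MP_a78e1f_lc.T.Iface

/-!
# PROM: a name of a tree of finite width which contains the limits of finite sets
-/

set_option autoImplicit false

universe u v w

open Cardinal Filter MeasureTheory

namespace Pool.Agent.Lib.MP_a78e1f_lc.H63

open Pool.Agent.Lib.MP_100a6c_lc
open Pool.Agent.Lib.MP_c5d73d_lc.F (pr)
open Pool.Agent.Lib.MP_e6fef2_lc
open Pool.Agent.Lib.MP_6d445e_gt
open Pool.Agent.Lib.MP_a78e1f_lc

section

variable {A : Type u} [CompleteBooleanAlgebra A] {K : Type w} (S : K → Finset (List Bool))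
  (l : K → ℕ) (φ : K → A)

/-- The Boolean value of: `F` is the restriction to `m` of `S k` for infinitely many `k`. -/
noncomputable def bb (m : ℕ) (F : Finset (List Bool)) : A :=
  ⨅ L : ℕ, ⨆ k : {k : K // L ≤ l k ∧ (S k).image (List.take m) = F}, φ k.1

/-- The pointwise version of `bb`. -/
def BB (g : Ult A) (m : ℕ) (F : Finset (List Bool)) : Prop :=
  ∀ L : ℕ, ∃ k : K, L ≤ l k ∧ (S k).image (List.take m) = F ∧ φ k ∈ g

theorem bb_iff : ∀ᶠ g in ae A, ∀ m F, bb S l φ m F ∈ g ↔ BB S l φ g m F := by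
  refine ae_all fun m => ae_all fun F => ?_
  have h1 := ae_iInf (A := A) fun L : ℕ =>
    ⨆ k : {k : K // L ≤ l k ∧ (S k).image (List.take m) = F}, φ k.1
  have h2 := ae_all fun L : ℕ => ae_iSup (A := A)
    fun k : {k : K // L ≤ l k ∧ (S k).image (List.take m) = F} => φ k.1
  filter_upwards [h1, h2] with g h1 h2
  unfold bb BB
  rw [h1]
  refine forall_congr' fun L => ?_
  rw [h2 L]
  constructor
  · rintro ⟨⟨k, h3, h4⟩, h5⟩
    exact ⟨k, h3, h4, h5⟩
  · rintro ⟨k, h3, h4, h5⟩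
    exact ⟨⟨k, h3, h4⟩, h5⟩

/-- The Boolean value of: `F` is the set chosen at the length `m`. -/
noncomputable def ww : ℕ → Finset (List Bool) → A
  | 0, F => bb S l φ 0 F ⊓
      ⨅ F' : {F' : Finset (List Bool) // Encodable.encode F' < Encodable.encode F},
        (bb S l φ 0 F'.1)ᶜ
  | m + 1, F => ww m (F.image (List.take m)) ⊓ bb S l φ (m + 1) F ⊓
      ⨅ F' : {F' : Finset (List Bool) // Encodable.encode F' < Encodable.encode F ∧
        F'.image (List.take m) = F.image (List.take m)}, (bb S l φ (m + 1) F'.1)ᶜ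

theorem ww_zero : ∀ᶠ g in ae A, ∀ F, ww S l φ 0 F ∈ g ↔ (BB S l φ g 0 F ∧
    ∀ F' : Finset (List Bool), Encodable.encode F' < Encodable.encode F → ¬ BB S l φ g 0 F') := by
  have h1 := ae_all fun F : Finset (List Bool) => ae_iInf (A := A)
    fun F' : {F' : Finset (List Bool) // Encodable.encode F' < Encodable.encode F} =>
      (bb S l φ 0 F'.1)ᶜ
  filter_upwards [bb_iff S l φ, h1] with g h0 h1 F
  rw [ww, g.mem_inf, h0, h1]
  refine and_congr_right fun _ => ?_
  constructor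
  · intro h F' hF' h2
    exact g.mem_compl.1 (h ⟨F', hF'⟩) ((h0 _ _).2 h2)
  · intro h F'
    exact g.mem_compl.2 fun h2 => h F'.1 F'.2 ((h0 _ _).1 h2)

theorem ww_succ : ∀ᶠ g in ae A, ∀ m F, ww S l φ (m + 1) F ∈ g ↔
    (ww S l φ m (F.image (List.take m)) ∈ g ∧ BB S l φ g (m + 1) F ∧
    ∀ F' : Finset (List Bool), Encodable.encode F' < Encodable.encode F →
      F'.image (List.take m) = F.image (List.take m) → ¬ BB S l φ g (m + 1) F') := by
  have h1 := ae_all fun m : ℕ => ae_all fun F : Finset (List Bool) => ae_iInf (A := A)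
    fun F' : {F' : Finset (List Bool) // Encodable.encode F' < Encodable.encode F ∧
        F'.image (List.take m) = F.image (List.take m)} => (bb S l φ (m + 1) F'.1)ᶜ
  filter_upwards [bb_iff S l φ, h1] with g h0 h1 m F
  rw [ww, g.mem_inf, g.mem_inf, h0, h1, and_assoc]
  refine and_congr_right fun _ => and_congr_right fun _ => ?_
  constructor
  · intro h F' hF' h3 h2
    exact g.mem_compl.1 (h ⟨F', hF', h3⟩) ((h0 _ _).2 h2)
  · intro h F'
    exact g.mem_compl.2 fun h2 => h F'.1 F'.2.1 F'.2.2 ((h0 _ _).1 h2)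

/-- Pigeonhole. -/
theorem pigeon {g : Ult A} {Q : K → Prop} {m : ℕ}
    (h : ∀ L : ℕ, ∃ k : K, L ≤ l k ∧ Q k ∧ φ k ∈ g) :
    ∃ F : Finset (List Bool), ∀ L : ℕ, ∃ k : K, L ≤ l k ∧ Q k ∧
      (S k).image (List.take m) = F ∧ φ k ∈ g := by
  by_contra hcon
  push Not at hcon
  choose L hL using hcon
  have hfin : {ρ : List Bool | ρ.length ≤ m}.Finite := List.finite_length_le Bool m
  obtain ⟨k, h1, h2, h3⟩ := h (hfin.toFinset.powerset.sup L)
  refine hL ((S k).image (List.take m)) k ?_ h2 rfl h3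
  refine le_trans (Finset.le_sup (f := L) ?_) h1
  rw [Finset.mem_powerset]
  intro ρ hρ
  obtain ⟨ρ', -, rfl⟩ := Finset.mem_image.1 hρ
  rw [Set.Finite.mem_toFinset]
  exact List.length_take_le _ _

theorem image_take {F : Finset (List Bool)} {i j : ℕ} (h : i ≤ j) :
    (F.image (List.take j)).image (List.take i) = F.image (List.take i) := by
  rw [Finset.image_image]
  refine Finset.image_congr fun ρ _ => ?_
  show (ρ.take j).take i = ρ.take i
  rw [List.take_take, min_eq_left h]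

/-- The least element. -/
theorem exists_first {P : Finset (List Bool) → Prop} (h : ∃ F, P F) :
    ∃ F, P F ∧ ∀ F', Encodable.encode F' < Encodable.encode F → ¬ P F' := by
  classical
  have h1 : ∃ n, ∃ F, P F ∧ Encodable.encode F = n := by
    obtain ⟨F, hF⟩ := h
    exact ⟨_, F, hF, rfl⟩
  obtain ⟨F, hF, h2⟩ := Nat.find_spec h1
  refine ⟨F, hF, fun F' h3 h4 => ?_⟩
  rw [h2] at h3
  exact Nat.find_min h1 h3 ⟨F', h4, rfl⟩

variable {S l φ}

/-- The properties of the chosen sets. -/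
structure Good (g : Ult A) : Prop where
  z : ∀ F, ww S l φ 0 F ∈ g ↔ (BB S l φ g 0 F ∧
    ∀ F' : Finset (List Bool), Encodable.encode F' < Encodable.encode F → ¬ BB S l φ g 0 F')
  s : ∀ m F, ww S l φ (m + 1) F ∈ g ↔
    (ww S l φ m (F.image (List.take m)) ∈ g ∧ BB S l φ g (m + 1) F ∧
    ∀ F' : Finset (List Bool), Encodable.encode F' < Encodable.encode F →
      F'.image (List.take m) = F.image (List.take m) → ¬ BB S l φ g (m + 1) F')

variable {g : Ult A}

theorem Good.uniq (h : Good (S := S) (l := l) (φ := φ) g) : ∀ m F F',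
    ww S l φ m F ∈ g → ww S l φ m F' ∈ g → F = F' := by
  intro m
  induction m with
  | zero =>
    intro F F' h1 h2
    obtain ⟨h3, h4⟩ := (h.z F).1 h1
    obtain ⟨h5, h6⟩ := (h.z F').1 h2
    rcases lt_trichotomy (Encodable.encode F) (Encodable.encode F') with h7 | h7 | h7
    · exact absurd h3 (h6 F h7)
    · exact Encodable.encode_injective h7
    · exact absurd h5 (h4 F' h7)
  | succ m ih =>
    intro F F' h1 h2
    obtain ⟨h0, h3, h4⟩ := (h.s m F).1 h1
    obtain ⟨h0', h5, h6⟩ := (h.s m F').1 h2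
    have h8 := ih _ _ h0 h0'
    rcases lt_trichotomy (Encodable.encode F) (Encodable.encode F') with h7 | h7 | h7
    · exact absurd h3 (h6 F h7 h8)
    · exact Encodable.encode_injective h7
    · exact absurd h5 (h4 F' h7 h8.symm)

theorem Good.bb (h : Good (S := S) (l := l) (φ := φ) g) {m : ℕ} {F : Finset (List Bool)}
    (hF : ww S l φ m F ∈ g) : BB S l φ g m F := by
  cases m with
  | zero => exact ((h.z F).1 hF).1
  | succ m => exact ((h.s m F).1 hF).2.1

theorem Good.ex (h : Good (S := S) (l := l) (φ := φ) g) (h0 : ∀ L : ℕ, ∃ k : K, L ≤ l k ∧ φ k ∈ g)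
    (m : ℕ) : ∃ F, ww S l φ m F ∈ g := by
  induction m with
  | zero =>
    have h1 : ∃ F, BB S l φ g 0 F := by
      obtain ⟨F, hF⟩ := pigeon S l φ (g := g) (Q := fun _ => True) (m := 0) fun L => by
        obtain ⟨k, h1, h2⟩ := h0 L
        exact ⟨k, h1, trivial, h2⟩
      refine ⟨F, fun L => ?_⟩
      obtain ⟨k, h1, -, h2, h3⟩ := hF L
      exact ⟨k, h1, h2, h3⟩
    obtain ⟨F, hF, h2⟩ := exists_first h1
    exact ⟨F, (h.z F).2 ⟨hF, h2⟩⟩
  | succ m ih =>
    obtain ⟨F, hF⟩ := ih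
    have h1 : ∃ F', F'.image (List.take m) = F ∧ BB S l φ g (m + 1) F' := by
      obtain ⟨F', hF'⟩ := pigeon S l φ (g := g) (Q := fun k => (S k).image (List.take m) = F)
        (m := m + 1) fun L => by
          obtain ⟨k, h1, h2, h3⟩ := h.bb hF L
          exact ⟨k, h1, h2, h3⟩
      refine ⟨F', ?_, fun L => ?_⟩
      · obtain ⟨k, -, h2, h3, -⟩ := hF' 0
        rw [← h3, image_take (Nat.le_succ m), h2]
      · obtain ⟨k, h1, -, h2, h3⟩ := hF' L
        exact ⟨k, h1, h2, h3⟩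
    obtain ⟨F', ⟨h2, h3⟩, h4⟩ := exists_first h1
    refine ⟨F', (h.s m F').2 ⟨by rw [h2]; exact hF, h3, fun F'' h5 h6 h7 => ?_⟩⟩
    exact h4 F'' h5 ⟨h6.trans h2, h7⟩

theorem Good.down (h : Good (S := S) (l := l) (φ := φ) g) {j : ℕ} : ∀ (d : ℕ)
    (F : Finset (List Bool)), ww S l φ (j + d) F ∈ g → BB S l φ g (j + d) F →
    ww S l φ j (F.image (List.take j)) ∈ g := by
  intro d
  induction d with
  | zero =>
    intro F hF hB
    obtain ⟨k, -, h2, -⟩ := hB 0
    have : F.image (List.take j) = F := by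
      rw [← h2]
      exact image_take (le_refl j)
    rw [this]
    exact hF
  | succ d ih =>
    intro F hF hB
    have h1 := ((h.s (j + d) F).1 hF).1
    have h2 := ih _ h1 (h.bb h1)
    rwa [image_take (Nat.le_add_right _ _)] at h2

end

/-- PROM. -/
theorem prom : PromStatement.{u, w} := by
  intro A _ K S l R φ hl hR
  have hgood : ∀ᶠ g in ae A, Good (S := S) (l := l) (φ := φ) g := by
    filter_upwards [ww_zero S l φ, ww_succ S l φ] with g h1 h2
    exact ⟨h1, h2⟩
  let v : List Bool → A := fun ρ => ⨆ F : {F : Finset (List Bool) // ρ ∈ F}, ww S l φ ρ.length F.1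
  have hv : ∀ᶠ g in ae A, ∀ ρ, v ρ ∈ g ↔ ∃ F : Finset (List Bool), ρ ∈ F ∧
      ww S l φ ρ.length F ∈ g := by
    have h1 := ae_all fun ρ : List Bool => ae_iSup (A := A)
      fun F : {F : Finset (List Bool) // ρ ∈ F} => ww S l φ ρ.length F.1
    filter_upwards [h1] with g h1 ρ
    rw [h1 ρ]
    constructor
    · rintro ⟨⟨F, h2⟩, h3⟩
      exact ⟨F, h2, h3⟩
    · rintro ⟨F, h2, h3⟩
      exact ⟨⟨F, h2⟩, h3⟩
  refine ⟨v, ?_, ?_, ?_⟩
  · filter_upwards [hgood, hv] with g hg hv m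
    by_cases hm : ∃ F, ww S l φ m F ∈ g
    · obtain ⟨F, hF⟩ := hm
      have h1 : {ρ : List Bool | ρ.length = m ∧ v ρ ∈ g} ⊆ (F : Set (List Bool)) := by
        rintro ρ ⟨rfl, h2⟩
        obtain ⟨F', h3, h4⟩ := (hv ρ).1 h2
        rw [hg.uniq _ _ _ hF h4]
        exact h3
      refine (Set.encard_le_encard h1).trans ?_
      rw [Set.encard_coe_eq_coe_finsetCard]
      obtain ⟨k, -, h2, -⟩ := hg.bb hF 0
      have h3 : F.card ≤ R := by
        rw [← h2]
        exact Finset.card_image_le.trans (hR k)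
      exact_mod_cast h3
    · have h1 : {ρ : List Bool | ρ.length = m ∧ v ρ ∈ g} = ∅ := by
        rw [Set.eq_empty_iff_forall_notMem]
        rintro ρ ⟨rfl, h2⟩
        obtain ⟨F', h3, h4⟩ := (hv ρ).1 h2
        exact hm ⟨F', h4⟩
      rw [h1, Set.encard_empty]
      exact zero_le
  · intro ρ ρ' hρ
    refine le_of_ae ?_
    filter_upwards [hgood, hv] with g hg hv h
    obtain ⟨F, h1, h2⟩ := (hv ρ').1 h
    obtain ⟨d, hd⟩ := Nat.exists_eq_add_of_le hρ.length_le
    rw [hd] at h2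
    have h3 := hg.down d F h2 (hg.bb h2)
    refine (hv ρ).2 ⟨_, ?_, h3⟩
    refine Finset.mem_image.2 ⟨ρ', h1, ?_⟩
    exact (List.prefix_iff_eq_take.1 hρ).symm
  · intro p hp m
    refine le_of_ae ?_
    have h1 := ae_all fun m : ℕ => ae_iSup (A := A) fun k : {k : K // m ≤ l k} => φ k.1
    filter_upwards [hgood, hv, h1] with g hg hv h1 hpg
    have h0 : ∀ L : ℕ, ∃ k : K, L ≤ l k ∧ φ k ∈ g := by
      intro L
      have h2 : (⨆ k : {k : K // L ≤ l k}, φ k.1) ∈ g := by
        refine g.mono ((hp L).trans ?_) hpg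
        exact iSup_le fun k => iSup_le fun hk =>
          le_iSup (fun k : {k : K // L ≤ l k} => φ k.1) ⟨k, hk⟩
      obtain ⟨k, hk⟩ := (h1 L).1 h2
      exact ⟨k.1, k.2, hk⟩
    obtain ⟨F, hF⟩ := hg.ex h0 m
    obtain ⟨k, h2, h3, h4⟩ := hg.bb hF m
    have h5 : φ k ⊓ ⨅ ρ ∈ S k, v (ρ.take m) ∈ g := by
      rw [g.mem_inf]
      refine ⟨h4, (g.mem_finset_iInf (S k) _).2 fun ρ hρ => ?_⟩
      have h6 : (ρ.take m).length = m := by
        rw [List.length_take, hl k ρ hρ, min_eq_left h2]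
      refine (hv _).2 ⟨F, ?_, by rw [h6]; exact hF⟩
      rw [← h3]
      exact Finset.mem_image.2 ⟨ρ, hρ, rfl⟩
    refine g.mono ?_ h5
    exact le_iSup_of_le k (le_iSup_of_le h2 le_rfl)

end Pool.Agent.Lib.MP_a78e1f_lc.H63
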